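import Pool.Agent.helper52.FS.SpecP

/-!
# Row fs:ROT (MP_07c750_an): four rotations
-/

open MeasureTheory Set

set_option autoImplicit false

namespace Pool.Agent.FS

noncomputable section

theorem ROT_bd (f : ℂ → ℂ) (z0 w : ℂ) (c r A : ℝ) (hc : 0 ≤ c) (hA : 0 ≤ A) (h : ∀ z : ℂ, ‖z - z0‖ ≤ r → ‖f z‖ ≤ A * Real.exp (-(c * |z.im|))) (hw : ‖w‖ ≤ r) (s : ℝ) (hs : s = |w.im|) :
    ‖f (z0 + w)‖ ≤ A * Real.exp (c * |z0.im|) * Real.exp (-(c * s)) := by
  have h1 := h (z0 + w) (by rw [add_sub_cancel_left]; exact hw)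
  refine h1.trans ?_
  rw [mul_assoc, ← Real.exp_add]
  refine mul_le_mul_of_nonneg_left (Real.exp_le_exp.2 ?_) hA
  have h2 : |w.im| ≤ |(z0 + w).im| + |z0.im| := by
    have h3 : w.im = (z0 + w).im - z0.im := by rw [Complex.add_im]; ring
    calc |w.im| = |(z0 + w).im - z0.im| := by rw [← h3]
      _ ≤ |(z0 + w).im| + |z0.im| := abs_sub _ _
  rw [hs]
  have h4 := mul_le_mul_of_nonneg_left h2 hc
  linarith

theorem ROT_proof : ROT_stmt := by
  intro f z0 c r A hc hr hA hf
  have hd : ∀ z : ℂ, ‖z - z0‖ ≤ r → DifferentiableAt ℂ f z := fun z hz => (hf z hz).1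
  have hb : ∀ z : ℂ, ‖z - z0‖ ≤ r → ‖f z‖ ≤ A * Real.exp (-(c * |z.im|)) := fun z hz => (hf z hz).2
  obtain ⟨G, hG⟩ : ∃ G : ℂ → ℂ, G = fun w => f (z0 + w) * f (z0 + Complex.I * w) * f (z0 + -w) * f (z0 + -(Complex.I * w)) := ⟨_, rfl⟩
  obtain ⟨B, hB⟩ : ∃ B : ℝ, B = A * Real.exp (c * |z0.im|) := ⟨_, rfl⟩
  have hB0 : 0 ≤ B := by rw [hB]; positivity
  have hdiff : ∀ w : ℂ, ‖w‖ ≤ r → DifferentiableAt ℂ G w := by
    intro w hw
    have a1 : DifferentiableAt ℂ (fun w => f (z0 + w)) w := by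
      have := hd (z0 + w) (by rw [add_sub_cancel_left]; exact hw)
      exact this.comp w ((differentiableAt_const _).add differentiableAt_id)
    have a2 : DifferentiableAt ℂ (fun w => f (z0 + Complex.I * w)) w := by
      have := hd (z0 + Complex.I * w) (by rw [add_sub_cancel_left, norm_mul, Complex.norm_I, one_mul]; exact hw)
      exact this.comp w ((differentiableAt_const _).add ((differentiableAt_const _).mul differentiableAt_id))
    have a3 : DifferentiableAt ℂ (fun w => f (z0 + -w)) w := by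
      have := hd (z0 + -w) (by rw [add_sub_cancel_left, norm_neg]; exact hw)
      exact this.comp w ((differentiableAt_const _).add differentiableAt_id.neg)
    have a4 : DifferentiableAt ℂ (fun w => f (z0 + -(Complex.I * w))) w := by
      have := hd (z0 + -(Complex.I * w)) (by rw [add_sub_cancel_left, norm_neg, norm_mul, Complex.norm_I, one_mul]; exact hw)
      exact this.comp w ((differentiableAt_const _).add ((differentiableAt_const _).mul differentiableAt_id).neg)
    rw [hG]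
    exact ((a1.mul a2).mul a3).mul a4
  have hbd : ∀ w : ℂ, ‖w‖ = r → ‖G w‖ ≤ B ^ 4 * Real.exp (-(2 * c * r)) := by
    intro w hw
    have hw1 : ‖w‖ ≤ r := hw.le
    have b1 := ROT_bd f z0 w c r A hc hA hb hw1 |w.im| rfl
    have b2 := ROT_bd f z0 (Complex.I * w) c r A hc hA hb (by rw [norm_mul, Complex.norm_I, one_mul]; exact hw1) |w.re| (by simp)
    have b3 := ROT_bd f z0 (-w) c r A hc hA hb (by rw [norm_neg]; exact hw1) |w.im| (by simp)
    have b4 := ROT_bd f z0 (-(Complex.I * w)) c r A hc hA hb (by rw [norm_neg, norm_mul, Complex.norm_I, one_mul]; exact hw1) |w.re| (by simp)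
    rw [← hB] at b1 b2 b3 b4
    have hwn : r ≤ |w.re| + |w.im| := by
      rw [← hw]
      exact Complex.norm_le_abs_re_add_abs_im w
    rw [hG]
    change ‖f (z0 + w) * f (z0 + Complex.I * w) * f (z0 + -w) * f (z0 + -(Complex.I * w))‖ ≤ _
    rw [norm_mul, norm_mul, norm_mul]
    have n1 : 0 ≤ B * Real.exp (-(c * |w.im|)) := by positivity
    have n2 : 0 ≤ B * Real.exp (-(c * |w.re|)) := by positivity
    calc ‖f (z0 + w)‖ * ‖f (z0 + Complex.I * w)‖ * ‖f (z0 + -w)‖ * ‖f (z0 + -(Complex.I * w))‖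
        ≤ (B * Real.exp (-(c * |w.im|))) * (B * Real.exp (-(c * |w.re|))) * (B * Real.exp (-(c * |w.im|))) * (B * Real.exp (-(c * |w.re|))) := by
          gcongr
      _ = B ^ 4 * (Real.exp (-(c * |w.im|)) * Real.exp (-(c * |w.re|)) * Real.exp (-(c * |w.im|)) * Real.exp (-(c * |w.re|))) := by ring
      _ = B ^ 4 * Real.exp (-(2 * c * (|w.re| + |w.im|))) := by
          rw [← Real.exp_add, ← Real.exp_add, ← Real.exp_add]
          congr 2
          ring
      _ ≤ B ^ 4 * Real.exp (-(2 * c * r)) := by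
          refine mul_le_mul_of_nonneg_left (Real.exp_le_exp.2 ?_) (by positivity)
          have := mul_le_mul_of_nonneg_left hwn (by linarith : 0 ≤ 2 * c)
          linarith
  have hG0 : ‖G 0‖ ≤ B ^ 4 * Real.exp (-(2 * c * r)) := by
    refine Complex.norm_le_of_forall_mem_frontier_norm_le (U := Metric.ball (0 : ℂ) r) Metric.isBounded_ball ?_ ?_ ?_
    · refine ⟨fun w hw => (hdiff w ?_).differentiableWithinAt, fun w hw => (hdiff w ?_).continuousAt.continuousWithinAt⟩
      · exact (mem_ball_zero_iff.1 hw).le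
      · rw [closure_ball _ hr.ne'] at hw
        exact mem_closedBall_zero_iff.1 hw
    · intro w hw
      rw [frontier_ball _ hr.ne'] at hw
      exact hbd w (mem_sphere_zero_iff_norm.1 hw)
    · exact subset_closure (Metric.mem_ball_self hr)
  have hG1 : ‖G 0‖ = ‖f z0‖ ^ 4 := by
    rw [hG]
    change ‖f (z0 + 0) * f (z0 + Complex.I * 0) * f (z0 + -0) * f (z0 + -(Complex.I * 0))‖ = _
    rw [mul_zero, neg_zero, add_zero, norm_mul, norm_mul, norm_mul]
    ring
  rw [hG1] at hG0
  have hfin : B ^ 4 * Real.exp (-(2 * c * r)) = (B * Real.exp (-(c * r / 2))) ^ 4 := by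
    rw [mul_pow, ← Real.exp_nat_mul]
    congr 2
    push_cast
    ring
  rw [hfin] at hG0
  rw [← hB]
  exact le_of_pow_le_pow_left₀ (by norm_num) (by positivity) hG0

end

end Pool.Agent.FS
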